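import Pool.Agent.W5h37.LST.Main

/-!
# The lower bound of Lang and Silverman for the invariants which are quotients of small linear
combinations of the elements of thin sets
-/

set_option autoImplicit false
set_option linter.unusedSectionVars false

namespace Pool.Agent.W5h37.LST

open NumberField IsDedekindDomain Finset Filter Pool.Agent.H691R3 Pool.Agent.W223.AK
open Height Pool.Agent.W5h37.Thin Pool.Agent.TH942 Pool.Agent.TH910.LS

theorem ev_log_ge (c : ℝ) : ∀ᶠ X : ℕ in atTop, c ≤ Real.log X := by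
  have h : Tendsto (fun X : ℕ => Real.log (X : ℝ)) atTop atTop :=
    Real.tendsto_log_atTop.comp tendsto_natCast_atTop_atTop
  exact h.eventually_ge_atTop c

theorem absH_rat {K : Type} [Field K] [NumberField K] (r : ℚ) :
    absH (r : K) = Real.log ((max r.num.natAbs r.den : ℕ) : ℝ) := by
  have hn : (0 : ℝ) < Module.finrank ℚ K := by exact_mod_cast Module.finrank_pos
  unfold absH
  rw [ht_eq_log, ht_rat]
  field_simp

theorem log_E_le {X : ℕ} (hX : 1 ≤ X) {ε : ℝ} (hε : 0 < ε) :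
    Real.log (⌈(X : ℝ) ^ ε⌉₊ : ℝ) ≤ ε * Real.log X + Real.log 2 := by
  have hX0 : (0 : ℝ) < X := by exact_mod_cast hX
  have hX1r : (1 : ℝ) ≤ X := by exact_mod_cast hX
  have hXε : 1 ≤ (X : ℝ) ^ ε := Real.one_le_rpow hX1r hε.le
  have hE2 : (⌈(X : ℝ) ^ ε⌉₊ : ℝ) ≤ 2 * (X : ℝ) ^ ε := by
    have := (Nat.ceil_lt_add_one (by positivity : 0 ≤ (X : ℝ) ^ ε)).le
    linarith
  have hE0 : (0 : ℝ) < (⌈(X : ℝ) ^ ε⌉₊ : ℝ) := by
    have := Nat.le_ceil ((X : ℝ) ^ ε)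
    linarith
  have h := Real.log_le_log hE0 hE2
  rw [Real.log_mul (by norm_num) (by positivity), Real.log_rpow hX0] at h
  linarith

/-- **Thin sets of any positive exponent.** -/
theorem part_one (m D g : ℕ) (θ κ : ℝ) (hm : 1 ≤ m) (hg : 0 < g) (hθ : 0 < θ) (hθ1 : θ ≤ 1)
    (hκ : 0 ≤ κ) :
    ∃ c δ η : ℝ, 0 < c ∧ 0 < δ ∧ 0 < η ∧ ∀ᶠ X : ℕ in atTop, ∀ A : Fin m → Finset ℕ,
      (∀ i, Spread X θ ((X : ℝ) ^ η) (A i)) → ∃ S : Finset (Fin m → ℕ), S ⊆ Fintype.piFinset A ∧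
        (S.card : ℝ) ≤ (X : ℝ) ^ (-δ) * ∏ i, ((A i).card : ℝ) ∧
        ∀ a ∈ Fintype.piFinset A, a ∉ S → ∀ u v : Fin m → ℤ,
          (∀ i, (|u i| : ℝ) ≤ (X : ℝ) ^ η) → (∀ i, (|v i| : ℝ) ≤ (X : ℝ) ^ η) →
          (∃ i j, u i * v j ≠ u j * v i) →
    ∀ (K : Type) [Field K] [NumberField K], Module.finrank ℚ K ≤ D →
    ∀ a' b' : 𝓞 K, 4 * (a' : K) ^ 3 + 27 * (b' : K) ^ 2 ≠ 0 →
      jinv (a' : K) b' = (((lin u a : ℚ) / (lin v a : ℚ) : ℚ) : K) →
      absH (a' : K) + absH (b' : K) ≤ κ * (1 + absH (jinv (a' : K) b')) →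
    ∀ (L : Type) [Field L] [NumberField L] [Algebra K L] [IsGalois K L] [DecidableEq L]
      (ρ : (L ≃ₐ[K] L) →* Matrix (Fin g) (Fin g) ℤ) (M : Matrix (Fin g) (Fin g) ℤ)
        (P : Fin g → Pts L a' b') (T : Finset (HeightOneSpectrum (𝓞 L))),
        Polar ρ M → FixedPt ρ P → RamPrimes K T →
        (Generates P ∧ ¬ IsOfFinAddOrder P) ∨ (Faithful ρ ∧ DenseOrbit ρ P) →
          c * (1 + absH (jinv (a' : K) b') + logNorms T / Module.finrank ℚ L) ≤
            chatM M P / Module.finrank ℚ L := by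
  obtain ⟨k, hk⟩ : ∃ k : ℕ, 1 < k * θ := by
    obtain ⟨k, hk⟩ := exists_nat_gt (1 / θ)
    refine ⟨k, ?_⟩
    rw [div_lt_iff₀ hθ] at hk
    exact hk
  have hk0 : k ≠ 0 := by
    rintro rfl
    rw [Nat.cast_zero, zero_mul] at hk
    linarith
  have hkr : (0 : ℝ) < k := by exact_mod_cast Nat.pos_of_ne_zero hk0
  obtain ⟨c, δ', hc, hδ', hmain⟩ := Y725.LS.dense_main D g 0 hg κ ((k * D : ℕ) : ℝ) hκ
  obtain ⟨A₀, c₀, -, hmain⟩ := hmain 1 one_ne_zero
  obtain ⟨ε, hε⟩ : ∃ ε, ε = min (1 / 8 : ℝ) (δ' / (8 * k)) := ⟨_, rfl⟩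
  have hε0 : 0 < ε := by rw [hε]; exact lt_min (by norm_num) (by positivity)
  have hε8 : ε ≤ 1 / 8 := by rw [hε]; exact min_le_left _ _
  have hεk : k * ε ≤ δ' / 8 := by
    have h1 : ε ≤ δ' / (8 * k) := by rw [hε]; exact min_le_right _ _
    calc k * ε ≤ k * (δ' / (8 * k)) := mul_le_mul_of_nonneg_left h1 hkr.le
      _ = δ' / 8 := by field_simp
  obtain ⟨δ, η, hδ, hη, -, h⟩ := ratio_main m k θ ε 1 hm hθ hθ1 hk hε0 (by linarith) one_pos
  refine ⟨c, δ, η, hc, hδ, hη, ?_⟩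
  filter_upwards [h, eventually_ge_atTop 1, ev_log_ge (2 * (k + δ') * Real.log 2 / δ'),
    ev_log_ge (2 * (A₀ + 1 + Real.log 2))] with X hX hX1 hX2 hX3
  intro A hA
  obtain ⟨S, hSA, hS, hgood⟩ := hX A hA
  refine ⟨S, hSA, hS, ?_⟩
  intro a haA haS u v huH hvH hind K _ _ hK a' b' hab hj hκ' L _ _ _ _ _ ρ M P T hM hP hT hor
  obtain ⟨r1, r2, -⟩ := hgood a haA haS u v huH hvH hind
  set r : ℚ := (lin u a : ℚ) / (lin v a : ℚ) with hr
  have hL0 : 0 ≤ Real.log X := Real.log_nonneg (by exact_mod_cast hX1)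
  have hl2 : 0 < Real.log 2 := Real.log_pos (by norm_num)
  have hE := log_E_le hX1 hε0
  have hd : (3 / 4) * Real.log X - Real.log 2 ≤ Real.log r.den := by
    refine le_trans ?_ r2
    nlinarith
  have hSz : Y725.LS.SzpiroLe ((k * D : ℕ) : ℝ) δ' 0 1 a' b' L := by
    refine szpiroLe_rat hk0 r1 hδ'.le ?_ hK a' b' hab hj L
    have h1 : (k : ℝ) * Real.log (⌈(X : ℝ) ^ ε⌉₊ : ℝ) ≤ k * (ε * Real.log X + Real.log 2) :=
      mul_le_mul_of_nonneg_left hE hkr.le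
    have h2 : k * (ε * Real.log X) ≤ δ' / 8 * Real.log X := by
      rw [← mul_assoc]
      exact mul_le_mul_of_nonneg_right hεk hL0
    have h3 : δ' * ((3 / 4) * Real.log X - Real.log 2) ≤ δ' * Real.log r.den :=
      mul_le_mul_of_nonneg_left hd hδ'.le
    rw [div_le_iff₀ hδ'] at hX2
    nlinarith
  have hA₀ : A₀ < absH (jinv (a' : K) b') := by
    rw [hj, absH_rat]
    have h7 : Real.log r.den ≤ Real.log ((max r.num.natAbs r.den : ℕ) : ℝ) := by
      refine Real.log_le_log (by exact_mod_cast r.den_pos) ?_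
      exact_mod_cast le_max_right _ _
    linarith
  have := hmain K hK a' b' hab hκ' L hSz ρ M P T hM hP hT hor
  rwa [if_pos hA₀] at this

open Pool.Agent.Y733.LS in
/-- **Thin sets of exponent more than one half.** -/
theorem part_two (m : ℕ) (θ c : ℝ) (hm : 1 ≤ m) (hθ : 1 / 2 < θ) (hθ1 : θ ≤ 1) (hc : c < 1 / 100) :
    ∃ δ η : ℝ, 0 < δ ∧ 0 < η ∧ ∀ᶠ X : ℕ in atTop, ∀ A : Fin m → Finset ℕ,
      (∀ i, Spread X θ ((X : ℝ) ^ η) (A i)) → ∃ S : Finset (Fin m → ℕ), S ⊆ Fintype.piFinset A ∧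
        (S.card : ℝ) ≤ (X : ℝ) ^ (-δ) * ∏ i, ((A i).card : ℝ) ∧
        ∀ a ∈ Fintype.piFinset A, a ∉ S → ∀ u v : Fin m → ℤ,
          (∀ i, (|u i| : ℝ) ≤ (X : ℝ) ^ η) → (∀ i, (|v i| : ℝ) ≤ (X : ℝ) ^ η) →
          (∃ i j, u i * v j ≠ u j * v i) →
    ∀ (K : Type) [Field K] [NumberField K],
      Real.log |(NumberField.discr K : ℝ)| ≤ Module.finrank ℚ K * (η * Real.log X) →
        LSP c (((lin u a : ℚ) / (lin v a : ℚ) : ℚ) : K) := by
  obtain ⟨η', hη'⟩ : ∃ η', η' = min ((1 - 100 * c) / 2) (1 / 4 : ℝ) := ⟨_, rfl⟩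
  have h0' : 0 < η' := by rw [hη']; exact lt_min (by linarith) (by norm_num)
  have h4' : η' ≤ 1 / 4 := by rw [hη']; exact min_le_right _ _
  have hc' : c ≤ (1 - 2 * η') / 100 := by
    have h1 : η' ≤ (1 - 100 * c) / 2 := by rw [hη']; exact min_le_left _ _
    linarith
  obtain ⟨ε, hε⟩ : ∃ ε, ε = η' / 32 := ⟨_, rfl⟩
  have hε0 : 0 < ε := by rw [hε]; positivity
  obtain ⟨δ, η, hδ, hη, hηε, h⟩ := ratio_main m 2 θ ε ε hm (by linarith) hθ1
    (by push_cast; linarith) hε0 (by rw [hε]; linarith) hε0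
  obtain ⟨C₁, hC₁⟩ : ∃ C₁, C₁ = 600 * (C3 + 1 + C4) / (1 - 2 * η') := ⟨_, rfl⟩
  obtain ⟨C₂, hC₂⟩ : ∃ C₂, C₂ = Real.log 7 + Real.log ((27 * 6912 : ℕ) : ℝ) := ⟨_, rfl⟩
  refine ⟨δ, η, hδ, hη, ?_⟩
  filter_upwards [h, eventually_ge_atTop 1,
    ev_log_ge ((4 * Real.log 2 + Real.log 6) * (4 / η')), ev_log_ge (2 * (C₁ + Real.log 2)),
    ev_log_ge (8 * (C₂ + 1 + Real.log 2)), ev_log_ge (2 * (1 + Real.log 2))] with X hX hX1 hX2 hX3 hX4 hX5
  intro A hA
  obtain ⟨S, hSA, hS, hgood⟩ := hX A hA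
  refine ⟨S, hSA, hS, ?_⟩
  intro a haA haS u v huH hvH hind K _ _ hdisc
  obtain ⟨r1, r2, r3⟩ := hgood a haA haS u v huH hvH hind
  set r : ℚ := (lin u a : ℚ) / (lin v a : ℚ) with hr
  have hL0 : 0 ≤ Real.log X := Real.log_nonneg (by exact_mod_cast hX1)
  have hl2 : 0 < Real.log 2 := Real.log_pos (by norm_num)
  have hl6 : 0 < Real.log 6 := Real.log_pos (by norm_num)
  have hE := log_E_le hX1 hε0
  have hn : (0 : ℝ) < Module.finrank ℚ K := by exact_mod_cast Module.finrank_pos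
  have hn1 : (1 : ℝ) ≤ Module.finrank ℚ K := by
    exact_mod_cast (Module.finrank_pos : 0 < Module.finrank ℚ K)
  have hspr := sp_rat (K := K) r1
  have hht := ht_rat (K := K) r
  have hle : Real.log r.den ≤ Real.log ((max r.num.natAbs r.den : ℕ) : ℝ) := by
    refine Real.log_le_log (by exact_mod_cast r.den_pos) ?_
    exact_mod_cast le_max_right _ _
  obtain ⟨x, hx⟩ : ∃ x, x = Real.log (X : ℝ) := ⟨_, rfl⟩
  obtain ⟨n, hnn⟩ : ∃ n : ℝ, n = Module.finrank ℚ K := ⟨_, rfl⟩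
  obtain ⟨H, hH⟩ : ∃ H, H = Real.log ((max r.num.natAbs r.den : ℕ) : ℝ) := ⟨_, rfl⟩
  obtain ⟨d, hd⟩ : ∃ d, d = Real.log (r.den : ℝ) := ⟨_, rfl⟩
  obtain ⟨lE, hlE⟩ : ∃ lE, lE = Real.log (⌈(X : ℝ) ^ ε⌉₊ : ℝ) := ⟨_, rfl⟩
  rw [← hx] at hX2 hX3 hX4 hX5 hL0 hE hdisc r2 r3
  rw [← hnn] at hn hn1 hspr hht hdisc
  rw [← hH] at hle hht r3
  rw [← hd] at hle hspr r2
  rw [← hlE] at hE hspr
  have hd2 : x / 2 ≤ d + Real.log 2 := by nlinarith
  have hden1 : 1 < r.den := by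
    have h1 : 0 < d := by nlinarith
    by_contra hcon
    have h2 : r.den ≤ 1 := by omega
    have h3 : r.den = 1 := le_antisymm h2 r.den_pos
    rw [hd, h3, Nat.cast_one, Real.log_one] at h1
    exact lt_irrefl _ h1
  -- the simple poles
  have hsp : (1 - η') * ht (r : K) ≤ sp (r : K) := by
    rw [hht]
    have h1 : n * d ≤ sp (r : K) + n * (3 * lE + Real.log 6) + 2 * (n * (η * x)) := by linarith
    have h2 : n * ((1 - 2 * ε) * x - Real.log 2) ≤ n * d := mul_le_mul_of_nonneg_left r2 hn.le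
    have h3 : n * (3 * lE) ≤ n * (3 * (ε * x + Real.log 2)) :=
      mul_le_mul_of_nonneg_left (by linarith) hn.le
    have h4 : n * (η * x) ≤ n * (ε * x) :=
      mul_le_mul_of_nonneg_left (mul_le_mul_of_nonneg_right hηε hL0) hn.le
    have h5 : (1 - η') * (n * H) ≤ (1 - η') * (n * ((1 + 2 * ε) * x)) := by
      refine mul_le_mul_of_nonneg_left (mul_le_mul_of_nonneg_left (r3.trans ?_) hn.le)
        (by linarith)
      exact mul_le_mul_of_nonneg_right (by linarith) hL0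
    have h6 : (1 - η') * (n * ((1 + 2 * ε) * x)) ≤ n * ((1 - η' + 2 * ε) * x) := by
      have : (1 - η') * (1 + 2 * ε) ≤ 1 - η' + 2 * ε := by nlinarith
      calc (1 - η') * (n * ((1 + 2 * ε) * x)) = n * (((1 - η') * (1 + 2 * ε)) * x) := by ring
        _ ≤ _ := mul_le_mul_of_nonneg_left (mul_le_mul_of_nonneg_right this hL0) hn.le
    have h7 : 4 * Real.log 2 + Real.log 6 ≤ η' / 4 * x := by
      have h8 : (4 * Real.log 2 + Real.log 6) * (4 / η') * (η' / 4) ≤ x * (η' / 4) :=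
        mul_le_mul_of_nonneg_right hX2 (by positivity)
      have h9 : (4 * Real.log 2 + Real.log 6) * (4 / η') * (η' / 4) =
          4 * Real.log 2 + Real.log 6 := by field_simp
      linarith
    have h8 : n * (4 * Real.log 2 + Real.log 6) ≤ n * (η' / 4 * x) :=
      mul_le_mul_of_nonneg_left h7 hn.le
    have h9 : n * ((1 - η' + 2 * ε) * x) ≤
        n * ((1 - 2 * ε) * x) - n * (3 * (ε * x)) - 2 * (n * (ε * x)) - n * (η' / 4 * x) := by
      have h10 : 0 ≤ n * x := mul_nonneg hn.le hL0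
      have h11 : (0 : ℝ) ≤ (η' - 2 * ε - 2 * ε - 3 * ε - 2 * ε - η' / 4) * (n * x) :=
        mul_nonneg (by rw [hε]; linarith) h10
      nlinarith
    nlinarith
  have hht1 : n * C₁ ≤ ht (r : K) := by
    rw [hht]
    exact mul_le_mul_of_nonneg_left (by linarith) hn.le
  have hnum0 : (r : K) ≠ 0 := by
    intro h0
    have h1 : r = 0 := by exact_mod_cast h0
    rw [h1] at hden1
    exact absurd hden1 (by norm_num)
  have hnum1 : (r : K) ≠ 1728 := by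
    intro h0
    have h1 : r = 1728 := by exact_mod_cast h0
    rw [h1] at hden1
    exact absurd hden1 (by norm_num)
  have htwo : ¬ Two (r : K) := by
    intro h2
    have h3 := sp_two h2
    rw [← hnn, ← hC₂, hht] at h3
    rw [hht] at hsp
    have h4 : (5 / 12) * (n * H) ≤ n * C₂ := by
      have h5 : (3 / 4 : ℝ) * (n * H) ≤ (1 - η') * (n * H) := by
        refine mul_le_mul_of_nonneg_right (by linarith) (mul_nonneg hn.le ?_)
        linarith
      linarith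
    have h5 : n * ((5 / 12) * H) ≤ n * C₂ := by linarith
    have h6 := le_of_mul_le_mul_left h5 hn
    linarith
  have hfin : LSP ((1 - 2 * η') / 100) (r : K) := by
    refine lsp_of hnum0 hnum1 htwo h0'.le (by linarith) hsp ?_
    rw [← hnn, ← hC₁]
    exact hht1
  intro a' b' hD hj Sb hSb g M hM P hP
  refine le_trans ?_ (hfin a' b' hD hj Sb hSb g M hM P hP)
  refine mul_le_mul_of_nonneg_right hc' ?_
  have h3 : 0 ≤ ht (r : K) := by
    rw [hht]
    exact mul_nonneg hn.le (by linarith)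
  have h4 : 0 ≤ ∑ v ∈ Sb, Real.log (Nv v) := Finset.sum_nonneg fun v _ => (log_Nv_pos v).le
  rw [← hnn]
  linarith

end Pool.Agent.W5h37.LST
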