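import Pool.Agent.W5h37.LST.Szp
import Pool.Agent.W5h37.Thin.PowersMain

/-!
# Quotients of linear forms in the elements of thin sets
-/

set_option autoImplicit false
set_option linter.unusedSectionVars false

namespace Pool.Agent.W5h37.LST

open NumberField IsDedekindDomain Finset Filter Pool.Agent.H691R3 Pool.Agent.W223.AK
open Height Pool.Agent.W5h37.Thin

/-- the facts about the quotient of two integers with a small common divisor -/
theorem quot {L M : ℤ} {k Y E B : ℕ} (hYM : (Y : ℤ) < |M|)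
    (hk : ∀ e : ℕ, (e : ℤ) ^ k ∣ M → e < E)
    (hg : ∀ D : ℕ, (D : ℤ) ∣ L → (D : ℤ) ∣ M → D < E) (hLB : |L| ≤ B) (hMB : |M| ≤ B) :
    (∀ e : ℕ, e ^ k ∣ ((L : ℚ) / M).den → e < E) ∧ Y < ((L : ℚ) / M).den * E ∧
      max ((L : ℚ) / M).num.natAbs ((L : ℚ) / M).den ≤ B := by
  have hM : M ≠ 0 := by
    rintro rfl
    rw [abs_zero] at hYM
    omega
  set r : ℚ := (L : ℚ) / M with hr
  have hMq : (M : ℚ) ≠ 0 := by exact_mod_cast hM
  have hdenq : (r.den : ℚ) ≠ 0 := by exact_mod_cast r.den_nz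
  have hcross : L * (r.den : ℤ) = r.num * M := by
    have h1 : (r.num : ℚ) / r.den = L / M := by rw [Rat.num_div_den]
    rw [div_eq_div_iff hdenq hMq] at h1
    have h2 : r.num * M = L * (r.den : ℤ) := by exact_mod_cast h1
    exact h2.symm
  have hdvd : (r.den : ℤ) ∣ M := by
    have h1 : (r.den : ℤ) ∣ r.num * M := ⟨L, by rw [← hcross]; ring⟩
    have h2 : IsCoprime (r.den : ℤ) r.num := by
      rw [Int.isCoprime_iff_nat_coprime, Int.natAbs_natCast]
      exact r.reduced.symm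
    exact h2.dvd_of_dvd_mul_left h1
  obtain ⟨d, hd⟩ := hdvd
  have hLd : L = r.num * d := by
    have h1 : L * (r.den : ℤ) = (r.num * d) * r.den := by rw [hcross, hd]; ring
    exact mul_right_cancel₀ (by exact_mod_cast r.den_nz) h1
  have hd0 : d ≠ 0 := by
    rintro rfl
    rw [mul_zero] at hd
    exact hM hd
  have hd1 : 1 ≤ d.natAbs := Int.natAbs_pos.2 hd0
  have hdE : d.natAbs < E := by
    apply hg
    · rw [Int.natCast_dvd, Int.natAbs_dvd_natAbs, hLd] 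
      exact dvd_mul_left _ _
    · rw [Int.natCast_dvd, Int.natAbs_dvd_natAbs, hd]
      exact dvd_mul_left _ _
  have hMabs : M.natAbs = r.den * d.natAbs := by
    rw [hd, Int.natAbs_mul, Int.natAbs_natCast]
  have hLabs : L.natAbs = r.num.natAbs * d.natAbs := by
    rw [hLd, Int.natAbs_mul]
  refine ⟨?_, ?_, ?_⟩
  · intro e he
    apply hk
    rw [hd]
    refine dvd_mul_of_dvd_left ?_ _
    exact_mod_cast he
  · have h1 : (Y : ℤ) < M.natAbs := by rw [Int.natCast_natAbs]; exact hYM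
    have h2 : Y < M.natAbs := by exact_mod_cast h1
    rw [hMabs] at h2
    exact h2.trans_le (Nat.mul_le_mul_left _ hdE.le)
  · refine max_le ?_ ?_
    · have h1 : (L.natAbs : ℤ) ≤ B := by rw [Int.natCast_natAbs]; exact hLB
      have h2 : L.natAbs ≤ B := by exact_mod_cast h1
      rw [hLabs] at h2
      exact (Nat.le_mul_of_pos_right _ hd1).trans h2
    · have h1 : (M.natAbs : ℤ) ≤ B := by rw [Int.natCast_natAbs]; exact hMB
      have h2 : M.natAbs ≤ B := by exact_mod_cast h1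
      rw [hMabs] at h2
      exact (Nat.le_mul_of_pos_right _ hd1).trans h2

/-- the good rational numbers -/
def GoodR (k E : ℕ) (lo hi : ℝ) (r : ℚ) : Prop :=
  (∀ e : ℕ, e ^ k ∣ r.den → e < E) ∧ lo ≤ Real.log r.den ∧
    Real.log ((max r.num.natAbs r.den : ℕ) : ℝ) ≤ hi

/-- **All quotients of small linear forms are good for almost all tuples.** -/
theorem ratio_main (m k : ℕ) (θ ε η₀ : ℝ) (hm : 1 ≤ m) (hθ : 0 < θ) (hθ1 : θ ≤ 1)
    (hk : 1 < k * θ) (hε : 0 < ε) (hε1 : ε < 1) (hη₀ : 0 < η₀) :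
    ∃ δ η : ℝ, 0 < δ ∧ 0 < η ∧ η ≤ η₀ ∧ ∀ᶠ X : ℕ in atTop, ∀ A : Fin m → Finset ℕ,
      (∀ i, Spread X θ ((X : ℝ) ^ η) (A i)) → ∃ S : Finset (Fin m → ℕ), S ⊆ Fintype.piFinset A ∧
        (S.card : ℝ) ≤ (X : ℝ) ^ (-δ) * ∏ i, ((A i).card : ℝ) ∧
        ∀ a ∈ Fintype.piFinset A, a ∉ S → ∀ u v : Fin m → ℤ,
          (∀ i, (|u i| : ℝ) ≤ (X : ℝ) ^ η) → (∀ i, (|v i| : ℝ) ≤ (X : ℝ) ^ η) →
          (∃ i j, u i * v j ≠ u j * v i) →
            GoodR k ⌈(X : ℝ) ^ ε⌉₊ ((1 - 2 * ε) * Real.log X - Real.log 2)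
              ((1 + 2 * η) * Real.log X) ((lin u a : ℚ) / (lin v a : ℚ)) := by
  obtain ⟨δ, η, hδ, hη, hηη₀, h⟩ := thin_good m k θ ε η₀ hm hθ hθ1 hk hε hε1 hη₀
  refine ⟨δ, η, hδ, hη, hηη₀, ?_⟩
  filter_upwards [h, eventually_ge_atTop 1, ev_const (m : ℝ) η hη] with X hX hX1 hXm
  intro A hA
  obtain ⟨S, hSA, hS, hgood⟩ := hX A hA
  refine ⟨S, hSA, hS, ?_⟩
  intro a haA haS u v huH hvH hind
  obtain ⟨g1, g2⟩ := hgood a haA haS
  have hX0 : (0 : ℝ) < X := by exact_mod_cast hX1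
  have hX1r : (1 : ℝ) ≤ X := by exact_mod_cast hX1
  have hXη : 1 ≤ (X : ℝ) ^ η := Real.one_le_rpow hX1r hη.le
  have hXε : 1 ≤ (X : ℝ) ^ ε := Real.one_le_rpow hX1r hε.le
  set U : ℕ := ⌊(X : ℝ) ^ η⌋₊ with hU
  set Y : ℕ := ⌊(X : ℝ) ^ (1 - ε)⌋₊ with hY
  set E : ℕ := ⌈(X : ℝ) ^ ε⌉₊ with hE
  have hU2 : (U : ℝ) ≤ (X : ℝ) ^ η := Nat.floor_le (by positivity)
  have hbd : ∀ w : Fin m → ℤ, (∀ i, (|w i| : ℝ) ≤ (X : ℝ) ^ η) → ∀ i, |w i| ≤ (U : ℤ) := by
    intro w hw i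
    have h3 : ((|w i|).toNat : ℤ) = |w i| := Int.toNat_of_nonneg (abs_nonneg _)
    have h4 : (((|w i|).toNat : ℕ) : ℝ) ≤ (X : ℝ) ^ η := by
      have h5 := hw i
      have h6 : (((|w i|).toNat : ℕ) : ℝ) = |(w i : ℝ)| := by
        rw [← Int.cast_abs, ← h3]
        push_cast
        rfl
      rw [h6]
      exact h5
    have h5 := Nat.le_floor h4
    rw [← hU] at h5
    rw [← h3]
    exact_mod_cast h5
  have huU := hbd u huH
  have hvU := hbd v hvH
  obtain ⟨i₀, j₀, hij⟩ := hind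
  have hu0 : u ≠ 0 := by
    rintro rfl
    simp at hij
  have hv0 : v ≠ 0 := by
    rintro rfl
    simp at hij
  obtain ⟨hu1, -⟩ := g1 u hu0 huU
  obtain ⟨hv1, hv2⟩ := g1 v hv0 hvU
  have hL : lin u a ≠ 0 := by
    intro h0
    rw [h0, abs_zero] at hu1
    omega
  obtain ⟨q1, q2, q3⟩ := quot (B := m * U * X) hv1 hv2 (g2 u v huU hvU ⟨i₀, j₀, hij⟩)
    (by exact_mod_cast lin_le hA U u huU haA) (by exact_mod_cast lin_le hA U v hvU haA)
  set r : ℚ := (lin u a : ℚ) / (lin v a : ℚ) with hr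
  have hden : (0 : ℝ) < r.den := by exact_mod_cast r.den_pos
  refine ⟨q1, ?_, ?_⟩
  · have hE2 : (E : ℝ) ≤ 2 * (X : ℝ) ^ ε := by
      have := (Nat.ceil_lt_add_one (by positivity : 0 ≤ (X : ℝ) ^ ε)).le
      linarith
    have h1 : (X : ℝ) ^ (1 - ε) ≤ r.den * (2 * (X : ℝ) ^ ε) := by
      have h2 : (X : ℝ) ^ (1 - ε) ≤ Y + 1 := (Nat.lt_floor_add_one _).le
      have h3 : ((Y : ℝ) + 1) ≤ r.den * E := by exact_mod_cast q2
      refine h2.trans (h3.trans ?_)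
      exact mul_le_mul_of_nonneg_left hE2 hden.le
    have h2 := Real.log_le_log (by positivity) h1
    rw [Real.log_mul hden.ne' (by positivity), Real.log_mul (by norm_num) (by positivity),
      Real.log_rpow hX0, Real.log_rpow hX0] at h2
    linarith
  · have h1 : ((max r.num.natAbs r.den : ℕ) : ℝ) ≤ (X : ℝ) ^ (1 + 2 * η) := by
      have h2 : ((max r.num.natAbs r.den : ℕ) : ℝ) ≤ m * U * X := by exact_mod_cast q3
      refine h2.trans ?_
      calc (m : ℝ) * U * X ≤ (X : ℝ) ^ η * (X : ℝ) ^ η * X := by gcongr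
        _ = (X : ℝ) ^ (1 + 2 * η) := by
            rw [← Real.rpow_add hX0]
            nth_rewrite 2 [← Real.rpow_one (X : ℝ)]
            rw [← Real.rpow_add hX0]
            congr 1
            ring
    have h2 : (0 : ℝ) < ((max r.num.natAbs r.den : ℕ) : ℝ) := by
      exact_mod_cast lt_max_of_lt_right r.den_pos
    have h3 := Real.log_le_log h2 h1
    rw [Real.log_rpow hX0] at h3
    exact h3

end Pool.Agent.W5h37.LST
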