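import Mathlib
import Pool.Agent.Y733.LS.Fin
import Pool.Agent.Y725.LS.Final

/-!
# The finite places of a number field at rational numbers whose denominators are divisible by no
power of a large number
-/

set_option autoImplicit false
set_option linter.unusedSectionVars false

namespace Pool.Agent.W5h37.LST

open NumberField IsDedekindDomain Finset Pool.Agent.H691R3 Pool.Agent.W223.AK Pool.Agent.Y733.LS

section One

variable {K : Type} [Field K] [NumberField K]

theorem fv_nat_le (v : Pr K) (m : ℕ) : fv v (m : K) ≤ 1 := (fv_Na v).nat m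

theorem neg_log_nonneg (v : Pr K) (m : ℕ) : 0 ≤ -Real.log (fv v (m : K)) :=
  neg_nonneg.2 (Real.log_nonpos ((fv v).nonneg _) (fv_nat_le v m))

theorem sum_eq {m : ℕ} (hm : m ≠ 0) (T : Finset (Pr K)) (hT : ∀ v, fv v (m : K) ≠ 1 → v ∈ T) :
    ∑ v ∈ T, -Real.log (fv v (m : K)) = Module.finrank ℚ K * Real.log m := by
  have h1 := fin_nat (K := K) hm
  have h2 : ∑ᶠ v : Pr K, Real.log (fv v (m : K)) = ∑ v ∈ T, Real.log (fv v (m : K)) := by
    refine finsum_eq_sum_of_support_subset _ ?_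
    intro v hv
    rw [Function.mem_support] at hv
    refine Finset.mem_coe.2 (hT v ?_)
    intro h
    rw [h, Real.log_one] at hv
    exact hv rfl
  rw [Finset.sum_neg_distrib, ← h2, h1]
  ring

theorem sum_le {m : ℕ} (hm : m ≠ 0) (T : Finset (Pr K)) :
    ∑ v ∈ T, -Real.log (fv v (m : K)) ≤ Module.finrank ℚ K * Real.log m := by
  classical
  have hm' : (m : K) ≠ 0 := Nat.cast_ne_zero.2 hm
  set S := (fv_support_finite hm').toFinset with hS
  rw [← sum_eq hm (S ∪ T) (fun v hv => by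
    rw [Finset.mem_union]
    left
    rw [hS, Set.Finite.mem_toFinset]
    exact hv)]
  exact Finset.sum_le_sum_of_subset_of_nonneg Finset.subset_union_right
    fun v _ _ => neg_log_nonneg v m

theorem fv_coprime {v : Pr K} {p m : ℕ} (hv : fv v (p : K) < 1) (h : Nat.Coprime m p) :
    fv v (m : K) = 1 := by
  apply le_antisymm (fv_nat_le v m)
  by_contra hcon
  push Not at hcon
  have hint : ∀ z : ℤ, fv v (z : K) ≤ 1 := by
    intro z
    have h1 := fv_nat_le v z.natAbs
    have h2 : fv v (z : K) = fv v ((z.natAbs : ℕ) : K) := by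
      rcases Int.natAbs_eq z with h | h
      · conv_lhs => rw [h]
        rw [Int.cast_natCast]
      · conv_lhs => rw [h]
        rw [Int.cast_neg, Int.cast_natCast, map_neg_eq_map]
    rw [h2]
    exact h1
  have h0 := Nat.gcd_eq_gcd_ab m p
  rw [Nat.Coprime.gcd_eq_one h] at h0
  have h1 : (1 : K) = (Nat.gcdA m p : K) * m + (Nat.gcdB m p : K) * p := by
    have h2 : ((1 : ℕ) : K) = (((m : ℤ) * Nat.gcdA m p + (p : ℤ) * Nat.gcdB m p : ℤ) : K) := by
      rw [← h0]
      push_cast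
      rfl
    push_cast at h2
    rw [h2]
    ring
  have h2 : fv v (1 : K) < 1 := by
    rw [h1]
    refine (fv_Na v).lt_add ?_ ?_
    · rw [map_mul]
      calc _ ≤ 1 * fv v (m : K) := mul_le_mul_of_nonneg_right (hint _) ((fv v).nonneg _)
        _ < 1 := by rw [one_mul]; exact hcon
    · rw [map_mul]
      calc _ ≤ 1 * fv v (p : K) := mul_le_mul_of_nonneg_right (hint _) ((fv v).nonneg _)
        _ < 1 := by rw [one_mul]; exact hv
  rw [map_one] at h2
  exact lt_irrefl _ h2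

theorem fv_norm (v : Pr K) : fv v ((Ideal.absNorm v.asIdeal : ℕ) : K) < 1 := by
  have h := TH951.NF.Nm_le (FinitePlace.mk v)
  unfold TH951.NF.Nm at h
  rw [FinitePlace.maximalIdeal_mk] at h
  rw [fv_apply]
  refine lt_of_le_of_lt h ?_
  have h2 : (1 : ℝ) < (Ideal.absNorm v.asIdeal : ℝ) := Nv_one_lt v
  exact inv_lt_one_of_one_lt₀ h2

theorem exists_prime (v : Pr K) : ∃ p : ℕ, p.Prime ∧ fv v (p : K) < 1 := by
  by_contra hcon
  push Not at hcon
  have h2 : ∀ m : ℕ, m ≠ 0 → fv v (m : K) = 1 := by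
    intro m
    induction m using Nat.recOnMul with
    | zero => intro h; exact absurd rfl h
    | one => intro _; rw [Nat.cast_one, map_one]
    | prime p hp => intro _; exact le_antisymm (fv_nat_le v p) (hcon p hp)
    | mul a b ha hb =>
      intro hab
      rw [Nat.cast_mul, map_mul, ha (left_ne_zero_of_mul hab), hb (right_ne_zero_of_mul hab),
        one_mul]
  have h3 := fv_norm v
  have h4 : Ideal.absNorm v.asIdeal ≠ 0 := by
    intro h0
    have h5 : (1 : ℝ) < (Ideal.absNorm v.asIdeal : ℝ) := Nv_one_lt v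
    rw [h0, Nat.cast_zero] at h5
    linarith
  rw [h2 _ h4] at h3
  exact lt_irrefl _ h3

theorem log_le_Nv {v : Pr K} {p : ℕ} (hp : p.Prime) (hv : fv v (p : K) < 1) :
    Real.log p ≤ Real.log (Nv v) := by
  have hp0 : (0 : ℝ) < p := by exact_mod_cast hp.pos
  refine Real.log_le_log hp0 ?_
  have h4 : Ideal.absNorm v.asIdeal ≠ 0 := by
    intro h0
    have h5 : (1 : ℝ) < (Ideal.absNorm v.asIdeal : ℝ) := Nv_one_lt v
    rw [h0, Nat.cast_zero] at h5
    linarith
  have h1 : p ∣ Ideal.absNorm v.asIdeal := by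
    by_contra hcon
    have h2 := fv_coprime hv ((Nat.coprime_comm.1 ((Nat.Prime.coprime_iff_not_dvd hp).2 hcon)))
    have h3 := fv_norm v
    rw [h2] at h3
    exact lt_irrefl _ h3
  have h5 := Nat.le_of_dvd (Nat.pos_of_ne_zero h4) h1
  unfold Nv
  exact_mod_cast h5

theorem neg_log_le {v : Pr K} {p : ℕ} (hp : p.Prime) (hv : fv v (p : K) < 1) :
    -Real.log (fv v (p : K)) ≤ Module.finrank ℚ K * Real.log (Nv v) := by
  have h := sum_le (K := K) hp.ne_zero {v}
  rw [Finset.sum_singleton] at h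
  exact h.trans (mul_le_mul_of_nonneg_left (log_le_Nv hp hv) (Nat.cast_nonneg _))

theorem free_part {v : Pr K} {p : ℕ} (hp : p.Prime) (hv : fv v (p : K) < 1) {k Q : ℕ} (hQ : Q ≠ 0)
    (hfree : ¬ p ^ k ∣ Q) : ∃ i < k, fv v (Q : K) = fv v (p : K) ^ i ∧ p ^ i ∣ Q ∧
      (i = 0 → ¬ p ∣ Q) := by
  obtain ⟨i, Q', h1, h2⟩ := Nat.exists_eq_pow_mul_and_not_dvd hQ p hp.ne_one
  refine ⟨i, ?_, ?_, ?_, ?_⟩
  · by_contra hcon
    push Not at hcon
    apply hfree
    rw [h2]
    exact dvd_mul_of_dvd_left (pow_dvd_pow p hcon) _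
  · rw [h2, Nat.cast_mul, Nat.cast_pow, map_mul, map_pow,
      fv_coprime hv (Nat.coprime_comm.1 ((Nat.Prime.coprime_iff_not_dvd hp).2 h1)), mul_one]
  · rw [h2]
    exact dvd_mul_right _ _
  · rintro rfl
    rw [h2, pow_zero, one_mul]
    exact h1

theorem exists_decomp {k : ℕ} (hk : k ≠ 0) (Q : ℕ) (hQ : Q ≠ 0) :
    ∃ e Q' : ℕ, e ≠ 0 ∧ Q' ≠ 0 ∧ Q = e ^ k * Q' ∧ ∀ p : ℕ, p.Prime → ¬ p ^ k ∣ Q' := by
  induction Q using Nat.strong_induction_on with
  | _ Q ih =>
    by_cases h : ∃ p : ℕ, p.Prime ∧ p ^ k ∣ Q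
    · obtain ⟨p, hp, Q₁, hQ₁⟩ := h
      have hQ₁0 : Q₁ ≠ 0 := by
        rintro rfl
        rw [mul_zero] at hQ₁
        exact hQ hQ₁
      have h2 : 2 ≤ p ^ k := hp.two_le.trans (Nat.le_self_pow hk p)
      have hlt : Q₁ < Q := by
        rw [hQ₁]
        have := Nat.pos_of_ne_zero hQ₁0
        nlinarith
      obtain ⟨e, Q', he, hQ', h3, h4⟩ := ih Q₁ hlt hQ₁0
      refine ⟨p * e, Q', mul_ne_zero hp.ne_zero he, hQ', ?_, h4⟩
      rw [hQ₁, h3, mul_pow]
      ring
    · push Not at h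
      exact ⟨1, Q, one_ne_zero, hQ, by rw [one_pow, one_mul], h⟩

/-- the absolute values of a rational number -/
theorem fv_rat (v : Pr K) (r : ℚ) (hr : 1 < fv v (r : K)) :
    Real.log (fv v (r : K)) ≤ -Real.log (fv v ((r.den : ℕ) : K)) ∧ fv v ((r.den : ℕ) : K) < 1 := by
  have hr0 : r ≠ 0 := by
    rintro rfl
    rw [Rat.cast_zero, map_zero] at hr
    linarith
  have hnum : r.num.natAbs ≠ 0 := by
    rw [ne_eq, Int.natAbs_eq_zero, Rat.num_eq_zero]
    exact hr0
  have hden0 : ((r.den : ℕ) : K) ≠ 0 := Nat.cast_ne_zero.2 r.den_nz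
  have hpos : 0 < fv v ((r.den : ℕ) : K) := (fv v).pos hden0
  have h1 : fv v (r : K) = fv v ((r.num.natAbs : ℕ) : K) / fv v ((r.den : ℕ) : K) := by
    have h2 : (r : K) = (r.num : K) / (r.den : K) := Rat.cast_def r
    rw [h2, map_div₀]
    congr 1
    rcases Int.natAbs_eq r.num with h | h
    · conv_lhs => rw [h]
      rw [Int.cast_natCast]
    · conv_lhs => rw [h]
      rw [Int.cast_neg, Int.cast_natCast, map_neg_eq_map]
  have hnn := fv_nat_le v r.num.natAbs
  have hnp : 0 < fv v ((r.num.natAbs : ℕ) : K) := (fv v).pos (Nat.cast_ne_zero.2 hnum)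
  constructor
  · rw [h1, Real.log_div hnp.ne' hpos.ne']
    have := Real.log_nonpos hnp.le hnn
    linarith
  · rw [h1, one_lt_div hpos] at hr
    linarith

/-- **The poles of a rational number whose denominator is not divisible by the `k`-th power of a
large number.** -/
theorem szpiro_rat {r : ℚ} {k E : ℕ} (hk : k ≠ 0) (hE : ∀ e : ℕ, e ^ k ∣ r.den → e < E)
    (S : Finset (Pr K)) (hS : ∀ v ∈ S, 1 < fv v (r : K)) :
    ∑ v ∈ S, Real.log (fv v (r : K)) ≤ (k * Module.finrank ℚ K) * ∑ v ∈ S, Real.log (Nv v) +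
      Module.finrank ℚ K * (k * Real.log E) := by
  obtain ⟨e, Q', he, hQ', h1, h2⟩ := exists_decomp hk r.den r.den_nz
  have heE : e < E := hE e ⟨Q', h1⟩
  have hterm : ∀ v ∈ S, Real.log (fv v (r : K)) ≤
      (k * Module.finrank ℚ K) * Real.log (Nv v) + k * (-Real.log (fv v (e : K))) := by
    intro v hv
    obtain ⟨h3, h4⟩ := fv_rat v r (hS v hv)
    obtain ⟨p, hp, hvp⟩ := exists_prime v
    obtain ⟨i, hi, h5, -, -⟩ := free_part hp hvp hQ' (h2 p hp)
    have hpe : 0 < fv v (e : K) := (fv v).pos (Nat.cast_ne_zero.2 he)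
    have hpp : 0 < fv v (p : K) := (fv v).pos (Nat.cast_ne_zero.2 hp.ne_zero)
    have h6 : Real.log (fv v ((r.den : ℕ) : K)) = k * Real.log (fv v (e : K)) +
        i * Real.log (fv v (p : K)) := by
      rw [h1, Nat.cast_mul, Nat.cast_pow, map_mul, map_pow, h5,
        Real.log_mul (pow_pos hpe _).ne' (pow_pos hpp _).ne', Real.log_pow, Real.log_pow]
    rw [h6] at h3
    have h7 := neg_log_le hp hvp
    have h8 := neg_log_nonneg v p
    have h9 : (i : ℝ) * (-Real.log (fv v (p : K))) ≤ k * (Module.finrank ℚ K * Real.log (Nv v)) := by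
      have hik : (i : ℝ) ≤ k := by exact_mod_cast hi.le
      exact mul_le_mul hik h7 h8 (Nat.cast_nonneg _)
    linarith
  refine (Finset.sum_le_sum hterm).trans ?_
  rw [Finset.sum_add_distrib, ← Finset.mul_sum, ← Finset.mul_sum]
  have h3 := sum_le (K := K) he S
  have h4 : Real.log e ≤ Real.log E := by
    refine Real.log_le_log ?_ ?_
    · exact_mod_cast Nat.pos_of_ne_zero he
    · exact_mod_cast heE.le
  have h5 : (k : ℝ) * ∑ v ∈ S, -Real.log (fv v (e : K)) ≤
      k * (Module.finrank ℚ K * Real.log e) := mul_le_mul_of_nonneg_left h3 (Nat.cast_nonneg _)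
  have h6 : (k : ℝ) * (Module.finrank ℚ K * Real.log e) ≤
      k * (Module.finrank ℚ K * Real.log E) :=
    mul_le_mul_of_nonneg_left (mul_le_mul_of_nonneg_left h4 (Nat.cast_nonneg _))
      (Nat.cast_nonneg _)
  linarith

/-- the ramified primes -/
theorem ram_sum (T : Finset (Pr K)) (p : Pr K → ℕ) (hp : ∀ v ∈ T, (p v).Prime)
    (hv : ∀ v ∈ T, 2 * Real.log (Nv v) ≤ -Real.log (fv v (p v : K))) :
    ∑ v ∈ T, -Real.log (fv v (p v : K)) ≤ 2 * Real.log |(NumberField.discr K : ℝ)| := by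
  classical
  set e : Pr K → ℕ := fun v => multiplicity v.asIdeal (Ideal.span {((p v : ℕ) : 𝓞 K)}) with he
  have hNv : ∀ v : Pr K, 0 < Nv v := fun v => Nv_pos v
  have hval : ∀ v ∈ T, -Real.log (fv v (p v : K)) = e v * Real.log (Nv v) := by
    intro v hvT
    have hp0 : ((p v : ℕ) : 𝓞 K) ≠ 0 := by exact_mod_cast (hp v hvT).ne_zero
    have h1 := FinitePlace.apply_mul_absNorm_pow_eq_one (FinitePlace.mk v) hp0
    rw [FinitePlace.maximalIdeal_mk] at h1
    have h2 : (FinitePlace.mk v) (((p v : ℕ) : 𝓞 K) : K) = fv v ((p v : ℕ) : K) := by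
      rw [fv_apply]
      norm_cast
    rw [h2] at h1
    have h3 : 0 < fv v ((p v : ℕ) : K) := (fv v).pos (Nat.cast_ne_zero.2 (hp v hvT).ne_zero)
    change fv v ((p v : ℕ) : K) * (Nv v) ^ (e v) = 1 at h1
    have h4 := congrArg Real.log h1
    rw [Real.log_mul h3.ne' (pow_pos (hNv v) _).ne', Real.log_pow, Real.log_one] at h4
    linarith
  have hlogNv : ∀ v : Pr K, 0 < Real.log (Nv v) := fun v => log_Nv_pos v
  have he2 : ∀ v ∈ T, 2 ≤ e v := by
    intro v hvT
    have h1 := hv v hvT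
    rw [hval v hvT] at h1
    have h2 := le_of_mul_le_mul_right h1 (hlogNv v)
    exact_mod_cast h2
  set J : Ideal (𝓞 K) := ∏ v ∈ T, v.asIdeal ^ (e v - 1) with hJ
  have hJd : J ∣ differentIdeal ℤ (𝓞 K) := by
    refine Finset.prod_dvd_of_coprime ?_ ?_
    · intro v hvT w hwT hne
      have h1 : v.asIdeal.IsMaximal := v.isMaximal
      have h2 : w.asIdeal.IsMaximal := w.isMaximal
      have h3 : v.asIdeal ≠ w.asIdeal := fun h => hne (HeightOneSpectrum.ext h)
      exact (Ideal.isCoprime_of_isMaximal h3).pow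
    · intro v hvT
      have hpZ : _root_.Prime ((p v : ℕ) : ℤ) := Nat.prime_iff_prime_int.mp (hp v hvT)
      have hmax : (Ideal.span {((p v : ℕ) : ℤ)}).IsMaximal :=
        PrincipalIdealRing.isMaximal_of_irreducible hpZ.irreducible
      have := v.isPrime
      refine pow_sub_one_dvd_differentIdeal ℤ v.asIdeal (e v) (p := Ideal.span {((p v : ℕ) : ℤ)})
        ?_ ?_
      · rw [Ne, Ideal.span_singleton_eq_bot]; exact hpZ.ne_zero
      · have h1 : Ideal.map (algebraMap ℤ (𝓞 K)) (Ideal.span {((p v : ℕ) : ℤ)}) =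
            Ideal.span {((p v : ℕ) : 𝓞 K)} := by
          rw [Ideal.map_span, Set.image_singleton]
          simp
        rw [h1]
        exact pow_multiplicity_dvd _ _
  have hd0 : NumberField.discr K ≠ 0 := NumberField.discr_ne_zero _
  have hdp : 0 < (NumberField.discr K).natAbs := Int.natAbs_pos.mpr hd0
  have h4 := Ideal.absNorm_dvd_absNorm_of_le (Ideal.dvd_iff_le.mp hJd)
  rw [NumberField.absNorm_differentIdeal K (𝓞 K)] at h4
  have h5 := Nat.le_of_dvd hdp h4
  have h6 : ((Ideal.absNorm J : ℕ) : ℝ) = ∏ v ∈ T, Nv v ^ (e v - 1) := by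
    rw [hJ, map_prod]
    push_cast
    refine Finset.prod_congr rfl fun v _ => ?_
    rw [map_pow]
    push_cast
    rfl
  have h7 : ∑ v ∈ T, ((e v - 1 : ℕ) : ℝ) * Real.log (Nv v) ≤
      Real.log |(NumberField.discr K : ℝ)| := by
    have h8 : ∑ v ∈ T, ((e v - 1 : ℕ) : ℝ) * Real.log (Nv v) =
        Real.log (∏ v ∈ T, Nv v ^ (e v - 1)) := by
      rw [Real.log_prod (fun v _ => (pow_pos (hNv v) _).ne')]
      exact Finset.sum_congr rfl fun v _ => (Real.log_pow _ _).symm
    have h9 : ((NumberField.discr K).natAbs : ℝ) = |(NumberField.discr K : ℝ)| := by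
      rw [Nat.cast_natAbs]; push_cast; rfl
    rw [h8, ← h9, ← h6]
    refine Real.log_le_log ?_ (by exact_mod_cast h5)
    rw [h6]
    exact Finset.prod_pos fun v _ => pow_pos (hNv v) _
  refine le_trans ?_ (mul_le_mul_of_nonneg_left h7 (by norm_num : (0 : ℝ) ≤ 2))
  rw [Finset.mul_sum]
  refine Finset.sum_le_sum fun v hvT => ?_
  rw [hval v hvT]
  have h8 := he2 v hvT
  have h9 : ((e v - 1 : ℕ) : ℝ) = e v - 1 := by
    rw [Nat.cast_sub (by omega)]
    simp
  rw [h9]
  have h10 : (2 : ℝ) ≤ e v := by exact_mod_cast h8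
  have h11 := hlogNv v
  nlinarith

end One

end Pool.Agent.W5h37.LST
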