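import Pool.Agent.W5h37.LST.Rat

/-!
# The simple poles of a rational number over a number field of small root discriminant
-/

set_option autoImplicit false
set_option linter.unusedSectionVars false

namespace Pool.Agent.W5h37.LST

open NumberField IsDedekindDomain Finset Pool.Agent.H691R3 Pool.Agent.W223.AK Pool.Agent.Y733.LS
open Height

section One

variable {K : Type} [Field K] [NumberField K]

theorem fv_le_of_dvd (v : Pr K) {a b : ℕ} (h : a ∣ b) : fv v (b : K) ≤ fv v (a : K) := by
  obtain ⟨c, rfl⟩ := h
  rw [Nat.cast_mul, map_mul]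
  calc fv v (a : K) * fv v (c : K) ≤ fv v (a : K) * 1 :=
        mul_le_mul_of_nonneg_left (fv_nat_le v c) ((fv v).nonneg _)
    _ = _ := mul_one _

theorem neg_log_dvd (v : Pr K) {a b : ℕ} (h : a ∣ b) (hb : b ≠ 0) :
    -Real.log (fv v (a : K)) ≤ -Real.log (fv v (b : K)) := by
  have h1 : 0 < fv v (b : K) := (fv v).pos (Nat.cast_ne_zero.2 hb)
  exact neg_le_neg (Real.log_le_log h1 (fv_le_of_dvd v h))

open Classical in
/-- **Most poles of a rational number with nearly square-free denominator are simple.** -/
theorem sp_rat {r : ℚ} {E : ℕ} (hE : ∀ e : ℕ, e ^ 2 ∣ r.den → e < E) :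
    Module.finrank ℚ K * Real.log r.den ≤ sp (r : K) +
      Module.finrank ℚ K * (3 * Real.log E + Real.log 6) +
        2 * Real.log |(NumberField.discr K : ℝ)| := by
  obtain ⟨e, Q', he, hQ', h1, h2⟩ := exists_decomp two_ne_zero r.den r.den_nz
  have heE : e < E := hE e ⟨Q', h1⟩
  choose p hp hvp using (exists_prime (K := K))
  have hden0 : ((r.den : ℕ) : K) ≠ 0 := Nat.cast_ne_zero.2 r.den_nz
  set T : Finset (Pr K) := (fv_support_finite hden0).toFinset with hT
  have hmemT : ∀ v, v ∈ T ↔ fv v ((r.den : ℕ) : K) ≠ 1 := by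
    intro v
    rw [hT, Set.Finite.mem_toFinset]
    rfl
  have hterm : ∀ v ∈ T, -Real.log (fv v ((r.den : ℕ) : K)) ≤
      (if Sp (r : K) v then Real.log (Nv v) else 0) + 3 * (-Real.log (fv v (e : K))) +
        (-Real.log (fv v ((6 : ℕ) : K))) +
        (if 2 * Real.log (Nv v) ≤ -Real.log (fv v (p v : K)) then
          -Real.log (fv v (p v : K)) else 0) := by
    intro v _
    obtain ⟨i, hi, h5, h6, h7⟩ := free_part (hp v) (hvp v) hQ' (h2 (p v) (hp v))
    have hpe : 0 < fv v (e : K) := (fv v).pos (Nat.cast_ne_zero.2 he)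
    have hpp : 0 < fv v (p v : K) := (fv v).pos (Nat.cast_ne_zero.2 (hp v).ne_zero)
    have h8 : Real.log (fv v ((r.den : ℕ) : K)) = 2 * Real.log (fv v (e : K)) +
        i * Real.log (fv v (p v : K)) := by
      rw [h1, Nat.cast_mul, Nat.cast_pow, map_mul, map_pow, h5,
        Real.log_mul (pow_pos hpe _).ne' (pow_pos hpp _).ne', Real.log_pow, Real.log_pow]
      norm_num
    have a1 : 0 ≤ (if Sp (r : K) v then Real.log (Nv v) else 0) := by
      split_ifs
      · exact (log_Nv_pos v).le
      · exact le_rfl
    have a2 := neg_log_nonneg v e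
    have a3 := neg_log_nonneg v 6
    have a5 := neg_log_nonneg v (p v)
    have a4 : 0 ≤ (if 2 * Real.log (Nv v) ≤ -Real.log (fv v (p v : K)) then
          -Real.log (fv v (p v : K)) else 0) := by
      split_ifs
      · exact a5
      · exact le_rfl
    rw [h8]
    rcases Nat.lt_succ_iff_lt_or_eq.1 hi with hi0 | hi1
    · have : i = 0 := by omega
      subst this
      push_cast at a3 ⊢
      linarith
    · subst hi1
      rw [pow_one] at h5 h6
      push_cast
      by_cases c6 : p v ∣ 6
      · have := neg_log_dvd v c6 (by norm_num)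
        push_cast at this a3 ⊢
        linarith
      by_cases ce : p v ∣ e
      · have := neg_log_dvd v ce he
        push_cast at a3 ⊢
        linarith
      by_cases cr : 2 * Real.log (Nv v) ≤ -Real.log (fv v (p v : K))
      · rw [if_pos cr]
        push_cast at a3 ⊢
        linarith
      · rw [if_neg cr]
        have hcop : ∀ m : ℕ, ¬ p v ∣ m → fv v (m : K) = 1 := fun m hm =>
          fv_coprime (hvp v) (Nat.coprime_comm.1 ((Nat.Prime.coprime_iff_not_dvd (hp v)).2 hm))
        have e2 : fv v ((2 : ℕ) : K) = 1 := hcop 2 fun h => c6 (h.trans (by norm_num))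
        have e3 : fv v ((3 : ℕ) : K) = 1 := hcop 3 fun h => c6 (h.trans (by norm_num))
        have ee : fv v (e : K) = 1 := hcop e ce
        have hdd : p v ∣ r.den := by
          rw [h1]
          exact dvd_mul_of_dvd_right h6 _
        have en : fv v ((r.num.natAbs : ℕ) : K) = 1 := by
          refine hcop _ fun h => ?_
          have h9 := Nat.dvd_gcd h hdd
          have h10 : Nat.gcd r.num.natAbs r.den = 1 := r.reduced
          rw [h10] at h9
          exact (hp v).one_lt.ne' (Nat.dvd_one.1 h9)
        have hpN : fv v (p v : K) = (Nv v)⁻¹ := by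
          obtain ⟨m, hm⟩ := fv_zpow v (Nat.cast_ne_zero.2 (hp v).ne_zero : ((p v : ℕ) : K) ≠ 0)
          have h9 := hvp v
          rw [hm] at h9 cr ⊢
          rw [Real.log_zpow] at cr
          push Not at cr
          have hN := log_Nv_pos v
          have h10 : m < 0 := by
            by_contra hcon
            push Not at hcon
            have := one_le_zpow₀ (Nv_one_lt v).le hcon
            linarith
          have h11 : -2 < m := by
            by_contra hcon
            push Not at hcon
            have : (m : ℝ) ≤ -2 := by exact_mod_cast hcon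
            nlinarith
          have h12 : m = -1 := by omega
          rw [h12, zpow_neg_one]
        have hrr : fv v (r : K) = Nv v := by
          have h9 : fv v (r : K) = fv v ((r.num.natAbs : ℕ) : K) / fv v ((r.den : ℕ) : K) := by
            have h2 : (r : K) = (r.num : K) / (r.den : K) := Rat.cast_def r
            rw [h2, map_div₀]
            congr 1
            rcases Int.natAbs_eq r.num with h | h
            · conv_lhs => rw [h]
              rw [Int.cast_natCast]
            · conv_lhs => rw [h]
              rw [Int.cast_neg, Int.cast_natCast, map_neg_eq_map]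
          rw [h9, en, h1, Nat.cast_mul, Nat.cast_pow, map_mul, map_pow, h5, ee, hpN]
          simp
        have hSp : Sp (r : K) v := ⟨by exact_mod_cast e2, by exact_mod_cast e3, hrr⟩
        rw [if_pos hSp, ee, hpN, Real.log_inv, Real.log_one]
        push_cast at a3 ⊢
        linarith
  have hsum := Finset.sum_le_sum hterm
  rw [sum_eq r.den_nz T (fun v hv => (hmemT v).2 hv), Finset.sum_add_distrib,
    Finset.sum_add_distrib, Finset.sum_add_distrib, ← Finset.mul_sum] at hsum
  have hsp : ∑ v ∈ T, (if Sp (r : K) v then Real.log (Nv v) else 0) = sp (r : K) := by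
    symm
    refine sp_eq (r : K) T fun v hv => (hmemT v).2 ?_
    have h3 : 1 < fv v (r : K) := by
      rw [hv.2.2]
      exact Nv_one_lt v
    exact ((fv_rat v r h3).2).ne
  have hs1 := sum_le (K := K) he T
  have hs2 := sum_le (K := K) (m := 6) (by norm_num) T
  have hs3 : ∑ v ∈ T, (if 2 * Real.log (Nv v) ≤ -Real.log (fv v (p v : K)) then
      -Real.log (fv v (p v : K)) else 0) ≤ 2 * Real.log |(NumberField.discr K : ℝ)| := by
    rw [← Finset.sum_filter]
    exact ram_sum _ p (fun v _ => hp v) (fun v hv => (Finset.mem_filter.1 hv).2)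
  have h4 : Real.log e ≤ Real.log E := by
    refine Real.log_le_log ?_ ?_
    · exact_mod_cast Nat.pos_of_ne_zero he
    · exact_mod_cast heE.le
  have hn0 : (0 : ℝ) ≤ Module.finrank ℚ K := Nat.cast_nonneg _
  have h5 := mul_le_mul_of_nonneg_left h4 hn0
  rw [hsp] at hsum
  push_cast at hs2 hsum
  linarith

theorem ht_eq_log (z : K) : logHeight₁ z = ht z := by rw [logHeight_eq, ht_eq_Sa]

/-- the height of a rational number -/
theorem ht_rat (r : ℚ) : ht (r : K) =
    Module.finrank ℚ K * Real.log ((max r.num.natAbs r.den : ℕ) : ℝ) := by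
  have h1 := Pool.Agent.Y725.LS.logHeight₁_ext (K := ℚ) (L := K) r
  rw [Rat.logHeight₁_eq_log_max, eq_ratCast, ht_eq_log] at h1
  exact h1

theorem ht_affine (α : K) : ht (4 * α + 3) ≤ ht α + Module.finrank ℚ K * Real.log 7 := by
  rw [ht_eq_Sa, ht_eq_Sa]
  unfold Sa
  rw [← Sm_const (K := K) (Real.log 7), ← Sm_add (Fs_ht α) (by simp)]
  refine Sm_mono (Fs_ht _) (supp_add (Fs_ht α) (by simp)) ?_ ?_
  · intro w
    rw [← Real.log_mul (lt_max_of_lt_right one_pos).ne' (by norm_num)]
    refine Real.log_le_log (lt_max_of_lt_right one_pos) ?_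
    have h1 : w.1 (4 * α + 3) ≤ 4 * w.1 α + 3 := by
      refine (w.1.add_le _ _).trans ?_
      have h4 := inf_nat w 4
      have h3 := inf_nat w 3
      push_cast at h3 h4
      rw [map_mul, h4, h3]
    have h2 := le_max_left (w.1 α) 1
    have h3 := le_max_right (w.1 α) 1
    refine max_le ?_ ?_ <;> nlinarith
  · intro v
    rw [add_zero]
    refine Real.log_le_log (lt_max_of_lt_right one_pos) ?_
    refine max_le ?_ (le_max_right _ _)
    refine (fv_Na v).le_add ?_ ?_
    · rw [map_mul]
      have h4 : fv v (4 : K) ≤ 1 := (fv_Na v).ofNat 4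
      calc fv v 4 * fv v α ≤ 1 * fv v α := mul_le_mul_of_nonneg_right h4 ((fv v).nonneg _)
        _ ≤ _ := by rw [one_mul]; exact le_max_left _ _
    · exact ((fv_Na v).ofNat 3).trans (le_max_right _ _)

open Classical in
/-- **A curve with a point of order two has few simple poles.** -/
theorem sp_two {j : K} (h : Two j) : sp j ≤ ht j / 3 + Module.finrank ℚ K * (Real.log 7 +
    Real.log ((27 * 6912 : ℕ) : ℝ)) := by
  obtain ⟨α, hα0, hα1, hg, rfl⟩ := h
  have hg' : 4 * α + 3 ≠ 0 := right_ne_zero_of_mul hg
  have hg3 : α + 3 ≠ 0 := by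
    intro h0
    rw [h0] at hg
    simp at hg
  have h3 : (6912 * α ^ 3 : K) ≠ 0 := mul_ne_zero (by norm_num) (pow_ne_zero _ hα0)
  set z : K := 4 * α + 3 with hz
  -- the simple poles
  have hsimple : ∀ v : Pr K, Sp (jt α) v → Real.log (Nv v) ≤ -Real.log (fv v z) ∧ fv v z < 1 := by
    intro v hv
    obtain ⟨e2, e3, e4⟩ := hv
    have hNv := Nv_one_lt v
    have e69 : fv v (6912 : K) = 1 := by
      have : (6912 : K) = 2 ^ 8 * 3 ^ 3 := by norm_num
      rw [this, map_mul, map_pow, map_pow, e2, e3]
      norm_num
    have e4' : fv v (4 : K) = 1 := by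
      have : (4 : K) = 2 ^ 2 := by norm_num
      rw [this, map_pow, e2, one_pow]
    have e9 : fv v (9 : K) = 1 := by
      have : (9 : K) = 3 ^ 2 := by norm_num
      rw [this, map_pow, e3, one_pow]
    have hj : fv v (jt α) = fv v α ^ 3 / (fv v (α + 3) ^ 2 * fv v z) := by
      unfold jt
      rw [map_div₀, map_mul, map_mul, map_pow, map_pow, e69, one_mul]
    have hzp : 0 < fv v z := (fv v).pos hg'
    have h3p : 0 < fv v (α + 3) := (fv v).pos hg3
    have hαp : 0 < fv v α := (fv v).pos hα0
    rw [hj] at e4
    rcases lt_or_ge 1 (fv v α) with c1 | c1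
    · -- no pole
      exfalso
      have f1 : fv v (α + 3) = fv v α := (fv_Na v).eq (by rw [e3]; exact c1)
      have f2 : fv v z = fv v α := by
        rw [hz, (fv_Na v).eq (by rw [map_mul, e4', e3, one_mul]; exact c1), map_mul, e4', one_mul]
      rw [f1, f2] at e4
      have : fv v α ^ 3 / (fv v α ^ 2 * fv v α) = 1 := by
        field_simp
      rw [this] at e4
      linarith
    · have g3 : fv v (α + 3) ≤ 1 := (fv_Na v).le_add c1 (by rw [e3])
      have gz : fv v z ≤ 1 := (fv_Na v).le_add (by rw [map_mul, e4', one_mul]; exact c1) (by rw [e3])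
      -- `α + 3` is a unit, since the pole is simple
      have hu : fv v (α + 3) = 1 := by
        by_contra hne
        have hlt : fv v (α + 3) < 1 := lt_of_le_of_ne g3 hne
        have hz1 : fv v z = 1 := by
          have e : (z : K) = 4 * (α + 3) - 9 := by rw [hz]; ring
          apply le_antisymm gz
          by_contra hcon
          push Not at hcon
          have : fv v (9 : K) < 1 := by
            have e' : (9 : K) = 4 * (α + 3) - z := by rw [hz]; ring
            rw [e']
            exact (fv_Na v).lt_sub (by rw [map_mul, e4', one_mul]; exact hlt) hcon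
          rw [e9] at this
          exact lt_irrefl _ this
        have hα1' : fv v α = 1 := by
          apply le_antisymm c1
          by_contra hcon
          push Not at hcon
          have : fv v (3 : K) < 1 := by
            have e' : (3 : K) = (α + 3) - α := by ring
            rw [e']
            exact (fv_Na v).lt_sub hlt hcon
          rw [e3] at this
          exact lt_irrefl _ this
        obtain ⟨m, hm⟩ := fv_zpow v hg3
        rw [hz1, hα1', hm, one_pow, mul_one] at e4
        have h5 : Nv v * ((Nv v ^ m) ^ 2) = 1 := by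
          have hpos : 0 < (Nv v ^ m) ^ 2 := by
            have := Nv_pos v
            positivity
          exact ((div_eq_iff hpos.ne').1 e4).symm
        have h6 : Nv v ^ (1 + m * 2) = 1 := by
          rw [zpow_add₀ (Nv_pos v).ne', zpow_one, zpow_mul]
          exact_mod_cast h5
        have h7 : (1 + m * 2 : ℤ) = 0 := by
          by_contra hne
          rcases lt_or_gt_of_ne hne with h | h
          · have := zpow_lt_one_of_neg₀ hNv h
            linarith
          · have := one_lt_zpow₀ hNv h
            linarith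
        omega
      rw [hu, one_pow, one_mul] at e4
      have hα3 : fv v α ^ 3 ≤ 1 := pow_le_one₀ hαp.le c1
      have h5 : Nv v ≤ (fv v z)⁻¹ := by
        rw [← e4, div_eq_mul_inv]
        calc _ ≤ 1 * (fv v z)⁻¹ := mul_le_mul_of_nonneg_right hα3 (inv_nonneg.2 hzp.le)
          _ = _ := one_mul _
      constructor
      · rw [← Real.log_inv]
        exact Real.log_le_log (Nv_pos v) h5
      · by_contra hcon
        push Not at hcon
        have : (fv v z)⁻¹ ≤ 1 := inv_le_one_of_one_le₀ hcon
        linarith
  -- summation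
  set T : Finset (Pr K) := (fv_support_finite hg').toFinset with hT
  have hsp : sp (jt α) = ∑ v ∈ T, (if Sp (jt α) v then Real.log (Nv v) else 0) := by
    refine sp_eq (jt α) T fun v hv => ?_
    rw [hT, Set.Finite.mem_toFinset]
    exact (hsimple v hv).2.ne
  have h4 : ∑ v ∈ T, (if Sp (jt α) v then Real.log (Nv v) else 0) ≤
      ∑ v ∈ T, Real.log (max (fv v z⁻¹) 1) := by
    refine Finset.sum_le_sum fun v _ => ?_
    have hzp : 0 < fv v z := (fv v).pos hg'
    split_ifs with hv
    · refine (hsimple v hv).1.trans ?_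
      rw [map_inv₀, ← Real.log_inv]
      exact Real.log_le_log (inv_pos.2 hzp) (le_max_left _ _)
    · exact Real.log_nonneg (le_max_right _ _)
  have h5 : ∑ v ∈ T, Real.log (max (fv v z⁻¹) 1) ≤ ht z := by
    have e1 : ht z = ht z⁻¹ := by
      rw [← ht_eq_log, ← ht_eq_log, logHeight₁_inv]
    rw [e1, ht_eq_Sa]
    unfold Sa Sm
    have e2 : ∑ᶠ v : Pr K, Real.log (max (fv v z⁻¹) 1) = ∑ v ∈ T, Real.log (max (fv v z⁻¹) 1) := by
      refine finsum_eq_sum_of_support_subset _ ?_
      intro v hv
      rw [Function.mem_support] at hv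
      rw [Finset.mem_coe, hT, Set.Finite.mem_toFinset]
      show fv v z ≠ 1
      intro h0
      rw [map_inv₀, h0, inv_one, max_self, Real.log_one] at hv
      exact hv rfl
    rw [e2]
    have : 0 ≤ ∑ w : InfinitePlace K, (w.mult : ℝ) * Real.log (max (w.1 z⁻¹) 1) :=
      Finset.sum_nonneg fun w _ => mul_nonneg (Nat.cast_nonneg _)
        (Real.log_nonneg (le_max_right _ _))
    linarith
  have h6 := ht_affine α
  have h7 := ht_jt hg
  rw [← hz] at h6
  have hl : 0 ≤ Module.finrank ℚ K * Real.log ((27 * 6912 : ℕ) : ℝ) :=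
    mul_nonneg (Nat.cast_nonneg _) (Real.log_natCast_nonneg _)
  rw [hsp, mul_add]
  refine (h4.trans h5).trans ?_
  generalize Real.log ((27 * 6912 : ℕ) : ℝ) = l at h7 hl ⊢
  linarith

end One

end Pool.Agent.W5h37.LST
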