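import Pool.Agent.W5h37.LST.Sp

/-!
# The Szpiro-type condition for curves with a rational invariant
-/

set_option autoImplicit false
set_option linter.unusedSectionVars false

namespace Pool.Agent.W5h37.LST

open NumberField IsDedekindDomain Finset Pool.Agent.H691R3 Pool.Agent.W223.AK Pool.Agent.Y733.LS
open Height Pool.Agent.TH942 Pool.Agent.TH910.LS

theorem j_le_one {F : Type} [Field F] {v : AbsoluteValue F ℝ} (hna : Y733.LS.Na v) (W : WeierstrassCurve F)
    [W.IsElliptic] (h : TH951.LS.GoodRed v W) : v W.j ≤ 1 := by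
  obtain ⟨C, h1, h2, h3, h4, h6, hD⟩ := h
  have hm : ∀ x y : F, v x ≤ 1 → v y ≤ 1 → v (x * y) ≤ 1 := by
    intro x y hx hy
    rw [map_mul]
    exact mul_le_one₀ hx (v.nonneg _) hy
  have hc4 : v (C • W).c₄ ≤ 1 := by
    have hb2 : v (C • W).b₂ ≤ 1 := by
      unfold WeierstrassCurve.b₂
      refine hna.le_add ?_ (hm _ _ (hna.ofNat 4) h2)
      rw [map_pow]
      exact pow_le_one₀ (v.nonneg _) h1
    have hb4 : v (C • W).b₄ ≤ 1 := by
      unfold WeierstrassCurve.b₄
      exact hna.le_add (hm _ _ (hna.ofNat 2) h4) (hm _ _ h1 h3)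
    unfold WeierstrassCurve.c₄
    refine hna.le_sub ?_ (hm _ _ (hna.ofNat 24) hb4)
    rw [map_pow]
    exact pow_le_one₀ (v.nonneg _) hb2
  have hjj : (C • W).j * (C • W).Δ = (C • W).c₄ ^ 3 := by
    rw [WeierstrassCurve.j, ← (C • W).coe_Δ', mul_comm, ← mul_assoc, Units.mul_inv, one_mul]
  rw [WeierstrassCurve.variableChange_j] at hjj
  have h5 := congrArg v hjj
  rw [map_mul, hD, mul_one, map_pow] at h5
  rw [h5]
  exact pow_le_one₀ (v.nonneg _) hc4

theorem log_Nm_below {K : Type} [Field K] [NumberField K] {L : Type} [Field L] [NumberField L]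
    [Algebra K L] (w : FinitePlace L) :
    Real.log (Nv (Y725.LS.below K w).maximalIdeal) ≤
      Real.log (Ideal.absNorm w.maximalIdeal.asIdeal) := by
  have h1 := Y725.LS.Nm_below K w
  have h2 := Y725.LS.inert_pos K w
  have h3 := TH951.NF.one_lt_Nm (Y725.LS.below K w)
  refine Real.log_le_log (Nv_pos _) ?_
  unfold Nv
  have h4 : TH951.NF.Nm (Y725.LS.below K w) ≤ TH951.NF.Nm w := by
    rw [h1]
    exact Nat.le_self_pow h2.ne' _
  exact_mod_cast h4

theorem szpiroLe_rat {D k E : ℕ} {δ : ℝ} (hk : k ≠ 0) {r : ℚ}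
    (hE : ∀ e : ℕ, e ^ k ∣ r.den → e < E) (hδ0 : 0 ≤ δ)
    (hδ : k * Real.log E ≤ δ * Real.log r.den)
    {K : Type} [Field K] [NumberField K] (hK : Module.finrank ℚ K ≤ D) (a b : 𝓞 K)
    (hab : 4 * (a : K) ^ 3 + 27 * (b : K) ^ 2 ≠ 0) (hj : jinv (a : K) b = (r : K))
    (L : Type) [Field L] [NumberField L] [Algebra K L] :
    Y725.LS.SzpiroLe (k * D : ℕ) δ 0 1 a b L := by
  classical
  have hfin : {v : Pr K | 1 < fv v (r : K)}.Finite := by
    refine (ne_sets (one_ne_zero) (one_ne_zero) (r : K)).subset ?_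
    intro v hv
    exact Or.inr (Or.inr hv)
  set V : Finset (Pr K) := hfin.toFinset with hV
  have hmemV : ∀ v, v ∈ V ↔ 1 < fv v (r : K) := by
    intro v
    rw [hV, Set.Finite.mem_toFinset]
    rfl
  choose up hup using (fun v : FinitePlace K => Y725.LS.exists_above (L := L) v)
  set F : Finset (FinitePlace L) := V.image fun v => up (FinitePlace.mk v) with hF
  have hinj : Function.Injective fun v : Pr K => up (FinitePlace.mk v) := by
    intro v w h
    have h1 := congrArg (Y725.LS.below K) h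
    simp only at h1
    rw [hup, hup] at h1
    exact FinitePlace.mk_eq_iff.mp h1
  have hab' : 4 * (algebraMap K L a) ^ 3 + 27 * (algebraMap K L b) ^ 2 ≠ 0 := by
    have h1 : algebraMap K L (4 * (a : K) ^ 3 + 27 * (b : K) ^ 2) ≠ 0 := by
      rw [ne_eq, map_eq_zero]
      exact hab
    rw [map_add, map_mul, map_mul, map_pow, map_pow, map_ofNat, map_ofNat] at h1
    exact h1
  have hell : (sw (algebraMap K L (a : K)) (algebraMap K L (b : K))).IsElliptic := sw_ell hab'
  have hjj : (sw (algebraMap K L (a : K)) (algebraMap K L (b : K))).j =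
      algebraMap K L (r : K) := by
    rw [jinv_eq _ _ hell, ← hj]
    unfold jinv
    simp [map_ofNat]
  refine ⟨∅, F, le_rfl, ?_, ?_⟩
  · intro w hw
    left
    intro hgood
    rw [hF, Finset.mem_image] at hw
    obtain ⟨v, hv, rfl⟩ := hw
    rw [hmemV] at hv
    have hna : Y733.LS.Na (up (FinitePlace.mk v)).val := by
      have h1 := fv_Na (K := L) (up (FinitePlace.mk v)).maximalIdeal
      have h2 : fv (up (FinitePlace.mk v)).maximalIdeal = (up (FinitePlace.mk v)).val := by
        unfold fv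
        rw [FinitePlace.mk_maximalIdeal]
      rwa [h2] at h1
    have h1 := j_le_one hna _ hgood
    rw [hjj, Y725.LS.ext_apply, hup] at h1
    have h2 : 1 < (FinitePlace.mk v).val (r : K) ^ Y725.LS.ldeg K (up (FinitePlace.mk v)) :=
      one_lt_pow₀ hv (Y725.LS.ldeg_pos K _).ne'
    linarith
  · intro S hS
    have hS' : ∀ v ∈ S.image (fun v : FinitePlace K => v.maximalIdeal), 1 < fv v (r : K) := by
      intro v hv
      obtain ⟨w, hw, rfl⟩ := Finset.mem_image.1 hv
      have h1 := (hS w hw).2.2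
      rw [hj] at h1
      unfold fv
      rw [FinitePlace.mk_maximalIdeal]
      exact h1
    have h1 := szpiro_rat hk hE _ hS'
    have h2 : ∑ v ∈ S, Real.log (v.val (jinv (a : K) b)) =
        ∑ v ∈ S.image (fun v : FinitePlace K => v.maximalIdeal), Real.log (fv v (r : K)) := by
      rw [Finset.sum_image (fun x _ y _ h => FinitePlace.maximalIdeal_injective h)]
      refine Finset.sum_congr rfl fun v _ => ?_
      rw [hj]
      unfold fv
      rw [FinitePlace.mk_maximalIdeal]
    rw [h2]
    refine h1.trans ?_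
    have h3 : ∑ v ∈ S.image (fun v : FinitePlace K => v.maximalIdeal), Real.log (Nv v) ≤
        ∑ w ∈ F, Real.log (Ideal.absNorm w.maximalIdeal.asIdeal) := by
      rw [hF, Finset.sum_image (fun x _ y _ h => hinj h)]
      refine (Finset.sum_le_sum_of_subset_of_nonneg (t := V) ?_ ?_).trans ?_
      · intro v hv
        exact (hmemV v).2 (hS' v hv)
      · intro v _ _
        exact (log_Nv_pos v).le
      · refine Finset.sum_le_sum fun v _ => ?_
        have h4 := log_Nm_below (K := K) (up (FinitePlace.mk v))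
        rw [hup, FinitePlace.maximalIdeal_mk] at h4
        exact h4
    have hFnn : 0 ≤ ∑ v ∈ S.image (fun v : FinitePlace K => v.maximalIdeal), Real.log (Nv v) :=
      Finset.sum_nonneg fun v _ => (log_Nv_pos v).le
    have hKD : (Module.finrank ℚ K : ℝ) ≤ D := by exact_mod_cast hK
    have hn0 : (0 : ℝ) ≤ Module.finrank ℚ K := Nat.cast_nonneg _
    have h5 : (k * Module.finrank ℚ K : ℝ) * ∑ v ∈ S.image
        (fun v : FinitePlace K => v.maximalIdeal), Real.log (Nv v) ≤
        ((k * D : ℕ) : ℝ) * ∑ w ∈ F, Real.log (Ideal.absNorm w.maximalIdeal.asIdeal) := by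
      push_cast
      refine mul_le_mul ?_ h3 hFnn (by positivity)
      exact mul_le_mul_of_nonneg_left hKD (Nat.cast_nonneg _)
    have h6 : (Module.finrank ℚ K : ℝ) * (k * Real.log E) ≤ δ * logHeight₁ (jinv (a : K) b) := by
      rw [hj, ht_eq_log, ht_rat]
      have h7 : Real.log r.den ≤ Real.log ((max r.num.natAbs r.den : ℕ) : ℝ) := by
        refine Real.log_le_log (by exact_mod_cast r.den_pos) ?_
        exact_mod_cast le_max_right _ _
      calc (Module.finrank ℚ K : ℝ) * (k * Real.log E) ≤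
          Module.finrank ℚ K * (δ * Real.log r.den) := mul_le_mul_of_nonneg_left hδ hn0
        _ ≤ Module.finrank ℚ K * (δ * Real.log ((max r.num.natAbs r.den : ℕ) : ℝ)) :=
            mul_le_mul_of_nonneg_left (mul_le_mul_of_nonneg_left h7 hδ0) hn0
        _ = _ := by ring
    linarith

end Pool.Agent.W5h37.LST
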